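import Pool.Agent.Lib.helper9.DiKit
import Pool.Agent.Lib.helper9.NltA

namespace Pool.Agent.Results.MP_398f0f_lc.NPComplete

open Pool.Agent.Cx Nlt Polynomial

/-- no loops, and exactly one arc between any two distinct vertices -/
def Tournament {V : Type} (A : V → V → Prop) : Prop :=
  (∀ v, ¬ A v v) ∧ ∀ u v, u ≠ v → Xor (A u v) (A v u)

/-- `M` is a square 0-1 matrix whose rows are, in some order, the out-neighbourhoods of the
vertices of a tournament on the set of columns -/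
def NLT (M : List (List Bool)) : Prop :=
  (∀ r ∈ M, r.length = M.length) ∧
    ∃ (A : Fin M.length → Fin M.length → Prop) (σ : Fin M.length ≃ Fin M.length),
      Tournament A ∧ ∀ v w, A v w ↔ Entry M (σ v) w

abbrev T := ℕ × ℕ × ℕ

def key (p : T) : ℕ := 5 * p.2.1 + p.1

def lt (ψ : List Cl) (k i : ℕ) : Lit := lit (ψ.getD i default) (k - 2)

def link (ψ : List Cl) (p q : T) : Prop :=
  2 ≤ p.1 ∧ ((q.1 = 1 ∧ q.2.1 = p.2.1) ∨ (q.1 = 0 ∧ q.2.1 = (lt ψ p.1 p.2.1).1))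

def E (ψ : List Cl) (p q : T) : Prop :=
  (q.1 = 1 ∧ p.2.2 % 7 = q.2.2) ∨ (q.1 = 0 ∧ tri (lt ψ p.1 p.2.1).2 p.2.2 q.2.2)

def G (ψ : List Cl) (p q : T) : Prop :=
  (p.2.2 = 21 ∧ q.2.2 = 21 ∧ key p < key q) ∨ (p.2.2 = 21 ∧ q.2.2 ≠ 21 ∧ key p ≠ key q) ∨
  (p.2.2 ≠ 21 ∧ q.2.2 = 21 ∧ key p = key q) ∨ (p.2.2 ≠ 21 ∧ q.2.2 ≠ 21 ∧
    ((key p = key q ∧ inner p.1 p.2.2 q.2.2) ∨ (link ψ p q ∧ E ψ p q) ∨ (link ψ q p ∧ ¬ E ψ q p) ∨
      (¬ link ψ p q ∧ ¬ link ψ q p ∧ key p < key q)))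

instance (ψ : List Cl) : DecidableRel (G ψ) := fun _ _ => by unfold G link E; infer_instance

def ok (ψ : List Cl) (p : T) : Prop :=
  p.1 < 5 ∧ p.2.1 ≤ size ψ ∧ (p.2.2 = 21 ∨ (p.1 = 0 ∧ p.2.1 < size ψ ∧ p.2.2 < 3) ∨
    (p.1 = 1 ∧ p.2.1 < ψ.length ∧ p.2.2 < 7) ∨ (2 ≤ p.1 ∧ p.2.1 < ψ.length ∧ p.2.2 < 21))

instance (ψ : List Cl) : DecidablePred (ok ψ) := fun _ => by unfold ok; infer_instance

section
variable {ψ : List Cl} {p q : T}

lemma G_same {k i t u : ℕ} (a : t ≠ 21) (b : u ≠ 21) : G ψ (k, i, t) (k, i, u) ↔ inner k t u := by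
  have : ¬ link ψ (k, i, t) (k, i, u) ∧ ¬ link ψ (k, i, u) (k, i, t) := by unfold link; omega
  simp [G, key, *]

lemma G_link (h : link ψ p q) (c : p.1 < 5) (a : p.2.2 ≠ 21) (b : q.2.2 ≠ 21) :
    (G ψ p q ↔ E ψ p q) ∧ (G ψ q p ↔ ¬ E ψ p q) := by
  have : ¬ link ψ q p ∧ key p ≠ key q ∧ key q ≠ key p := by unfold link key at *; omega
  simp [G, *]

lemma G_far (h : ¬ link ψ p q) (h' : ¬ link ψ q p) (c : key p ≠ key q) (a : p.2.2 ≠ 21)
    (b : q.2.2 ≠ 21) : G ψ p q ↔ key p < key q := by simp [G, *]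

def Good (ψ : List Cl) (s : T → ℕ) : Prop :=
  ∀ p, ok ψ p → p.2.2 ≠ 21 → ok ψ (p.1, p.2.1, s p) ∧ s p ≠ 21 ∧ ¬ G ψ (p.1, p.2.1, s p) p ∧
    ∀ q, ok ψ q → q.2.2 ≠ 21 → p ≠ q → (G ψ (p.1, p.2.1, s p) q ↔ ¬ G ψ (q.1, q.2.1, s q) p)

lemma lt_lt {i : ℕ} (h : i < ψ.length) (c : ℕ) : (lt ψ c i).1 < size ψ := by
  have := size_lt_of_mem (List.getElem_mem h)
  simp only [lt, lit, List.getD_eq_getElem _ _ h]
  generalize ψ[i] = x at *
  obtain ⟨⟨_, _⟩, ⟨_, _⟩, _, _⟩ := x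
  simp only [size_pair, size_nat] at this
  split_ifs <;> simp only <;> omega

lemma Good.one {s : T → ℕ} (h : Good ψ s) : One ψ := by
  have l := length_lt_size ψ
  have a : ∀ k i n, n ≤ 21 → (∀ t < n, ok ψ (k, i, t)) → In k n fun t => s (k, i, t) :=
    fun k i n hn o t ht => by
      obtain ⟨-, b1, b2, b3⟩ := h _ (o t ht) (by simp; omega)
      refine ⟨by rwa [G_same b1 (by omega)] at b2, fun u hu e => ?_⟩
      have := b3 _ (o u hu) (by simp; omega) (by simpa)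
      rwa [G_same b1 (by omega), G_same (h _ (o u hu) (by simp; omega)).2.1 (by omega)] at this
  have b : ∀ p q, ok ψ p → ok ψ q → p.2.2 ≠ 21 → q.2.2 ≠ 21 → link ψ p q →
      (E ψ (p.1, p.2.1, s p) q ↔ E ψ p (q.1, q.2.1, s q)) := fun p q o o' z z' g => by
    have := (h p o z).2.2.2 q o' z' (by rintro rfl; unfold link at g; omega)
    rwa [(G_link (p := (p.1, p.2.1, s p)) g o.1 (h p o z).2.1 z').1,
      (G_link (q := (q.1, q.2.1, s q)) g o.1 z (h q o' z').2.1).2, not_not] at this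
  have c : ∀ v, ∃ τ, v < size ψ → ∀ x < 3, s (0, v, x) = rot τ x := fun v => by
    by_cases hv : v < size ψ
    · have o : ∀ t < 3, ok ψ (0, v, t) := fun t ht => by unfold ok; simp; omega
      simpa [hv] using f1 (a 0 v 3 (by omega) o) fun t ht => by
        have := h _ (o t ht) (by simp; omega); unfold ok at this; simp at this; omega
    · simp [hv]
  choose τ hτ using c
  refine ⟨τ, fun c hc => ?_⟩
  obtain ⟨i, hi, rfl⟩ := List.getElem_of_mem hc
  have o : ∀ t < 7, ok ψ (1, i, t) := fun t ht => by unfold ok; simp; omega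
  obtain ⟨j, hj, e⟩ := f2 (a 1 i 7 (by omega) o) fun t ht => by
    have := h _ (o t ht) (by simp; omega); unfold ok at this; simp at this; omega
  suffices ∀ c < 3, j < 3 ∧ (τ (lit ψ[i] c).1 = (lit ψ[i] c).2 ↔ j = c) from
    ⟨j, (this 0 (by omega)).1, fun c hc => (this c hc).2⟩
  intro c hc
  have o' : ∀ t < 21, ok ψ (c + 2, i, t) := fun t ht => by unfold ok; simp; omega
  have e' : lt ψ (c + 2) i = lit ψ[i] c := by simp [lt, hi]
  have v := e' ▸ lt_lt hi (c + 2)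
  rw [← beq_iff_eq, ← f3 c hc _ j hj]
  refine (a _ i 21 le_rfl o').congr fun t ht => (f4 _ _ j hj t ht _ ?_).1 ⟨fun x hx => ?_, fun x hx => ?_⟩
  · have := h _ (o' t ht) (by simp; omega); unfold ok at this; simp at this; omega
  · have := b (c + 2, i, t) (0, (lit ψ[i] c).1, x) (o' t ht) (by unfold ok; simp; omega)
      (by simp; omega) (by simp; omega) (by simp [link, e'])
    simpa [E, e', hτ _ v x hx] using this
  · have := b (c + 2, i, t) (1, i, x) (o' t ht) (o x hx) (by simp; omega) (by simp; omega)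
      (by simp [link])
    simpa [E, e x hx] using this

lemma good_of_one (h : One ψ) : ∃ s, Good ψ s := by
  obtain ⟨τ, h⟩ := h
  have c : ∀ i, ∃ k < 3, i < ψ.length → ∀ j < 3,
      (τ (lt ψ (j + 2) i).1 == (lt ψ (j + 2) i).2) = true ↔ k = j := fun i => by
    by_cases hi : i < ψ.length
    · simpa [lt, hi] using h _ (List.getElem_mem hi)
    · exact ⟨0, by simp [hi]⟩
  choose k hk e using c
  obtain ⟨s, s0, s1, s2⟩ : ∃ s : T → ℕ, (∀ i t, s (0, i, t) = rot (τ i) t) ∧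
      (∀ i t, s (1, i, t) = fan (k i) t) ∧ ∀ c i t, s (c + 2, i, t) =
        gad (τ (lt ψ (c + 2) i).1 == (lt ψ (c + 2) i).2) (k i) t :=
    ⟨fun p => if p.1 = 0 then rot (τ p.2.1) p.2.2 else if p.1 = 1 then fan (k p.2.1) p.2.2 else
      gad (τ (lt ψ p.1 p.2.1).1 == (lt ψ p.1 p.2.1).2) (k p.2.1) p.2.2, by simp, by simp, by simp⟩
  have a : ∀ p, ok ψ p → p.2.2 ≠ 21 → ∃ n, In p.1 n (fun t => s (p.1, p.2.1, t)) ∧ s p < n ∧ n ≤ 21 ∧
      ∀ t ≠ 21, ok ψ (p.1, p.2.1, t) ↔ t < n := by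
    rintro ⟨c, i, t⟩ o z
    have g := f5.2 (k i) (by have := hk i; omega)
    unfold ok at *
    simp only at *
    by_cases c0 : c = 0
    · subst c0
      simp only [s0, true_and]
      exact ⟨3, (f5.1 (τ i)).1, (f5.1 (τ i)).2 t (by omega), by omega, by omega⟩
    by_cases c1 : c = 1
    · subst c1
      simp only [s1, true_and]
      exact ⟨7, g.1, g.2.1 t (by omega), by omega, by omega⟩
    obtain ⟨c, rfl⟩ := Nat.exists_eq_add_of_le' (show 2 ≤ c by omega)
    simp only [s2]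
    exact ⟨21, (f3 c (by omega) _ _ (by have := hk i; omega)).2 ⟨hk i, e i (by omega) c (by omega)⟩,
      g.2.2 _ t (by omega), by omega, by omega⟩
  have b : ∀ p q, ok ψ p → ok ψ q → p.2.2 ≠ 21 → q.2.2 ≠ 21 → link ψ p q →
      (E ψ (p.1, p.2.1, s p) q ↔ E ψ p (q.1, q.2.1, s q)) := by
    rintro ⟨c, i, t⟩ ⟨d, v, x⟩ o o' z z' ⟨g, g'⟩
    obtain ⟨c, rfl⟩ := Nat.exists_eq_add_of_le' g
    have j : k i < 8 := by have := hk i; omega
    have ht : t < 21 := by unfold ok at o; simp only at *; omega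
    have := (f4 (τ (lt ψ (c + 2) i).1) (lt ψ (c + 2) i).2 _ j t ht _
      ((f5.2 _ j).2.2 _ t ht)).2 rfl
    unfold ok at o'
    rcases g' with ⟨rfl, rfl⟩ | ⟨rfl, rfl⟩
    · simpa [E, s1, s2] using this.2 x (by simp only at *; omega)
    · simpa [E, s0, s2] using this.1 x (by simp only at *; omega)
  refine ⟨s, fun p o z => ?_⟩
  obtain ⟨n, a1, a2, a3, a4⟩ := a p o z
  have z1 : s p ≠ 21 := by omega
  have hp := (a4 _ z).1 o
  refine ⟨(a4 _ z1).2 a2, z1, by rw [G_same z1 z]; exact (a1 _ hp).1, fun q o' z' d => ?_⟩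
  obtain ⟨m, -, b2, b3, -⟩ := a q o' z'
  have z2 : s q ≠ 21 := by omega
  by_cases c : key p = key q
  · obtain ⟨x, i, t⟩ := p
    obtain ⟨y, i', u⟩ := q
    obtain ⟨rfl, rfl⟩ : x = y ∧ i = i' := by have := o.1; have := o'.1; simp only [key] at *; omega
    rw [G_same z1 z', G_same z2 z]
    exact (a1 _ hp).2 u ((a4 _ z').1 o') (by simpa using d)
  by_cases l : link ψ p q
  · rw [(G_link (p := (p.1, p.2.1, s p)) l o.1 z1 z').1,
      (G_link (q := (q.1, q.2.1, s q)) l o.1 z z2).2, not_not]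
    exact b p q o o' z z' l
  by_cases l' : link ψ q p
  · rw [(G_link (p := (q.1, q.2.1, s q)) l' o'.1 z2 z).1,
      (G_link (q := (p.1, p.2.1, s p)) l' o'.1 z' z1).2]
    exact (b q p o' o z' z l').symm.not
  · rw [G_far (p := (p.1, p.2.1, s p)) l l' c z1 z', G_far (p := (q.1, q.2.1, s q)) l' l (Ne.symm c) z2 z]
    simp only [key] at c ⊢; omega

end

def Sol {V : Type} (D : V → V → Prop) (g : V → V) : Prop :=
  ∀ a, ¬ D (g a) a ∧ ∀ b, a ≠ b → (D (g a) b ↔ ¬ D (g b) a)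

lemma sol_iff {V : Type} [Finite V] {D : V → V → Prop} : (∃ (A : V → V → Prop) (σ : V ≃ V),
    Tournament A ∧ ∀ v w, A v w ↔ D (σ v) w) ↔ ∃ g, Sol D g :=
  ⟨fun ⟨_, σ, h, e⟩ => ⟨σ, fun a => ⟨mt (e a a).2 (h.1 a), fun b d => by
    simpa only [← e, xor_iff_iff_not] using h.2 a b d⟩⟩, fun ⟨g, h⟩ =>
    ⟨fun v w => D (g v) w, .ofBijective g (Finite.injective_iff_bijective.1 fun a b e => by_contra
      fun d => (h b).1 (e ▸ ((h a).2 b d).2 (e ▸ (h a).1))),
      ⟨fun v => (h v).1, fun u v d => xor_iff_iff_not.2 ((h u).2 v d)⟩, fun _ _ => Iff.rfl⟩⟩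

section
variable {V : Type} {ψ : List Cl} {f : V → T} (h2 : ∀ p, (∃ a, f a = p) ↔ ok ψ p) (h3 : f.Injective)
include h2 h3

lemma Good.sol {s : T → ℕ} (h : Good ψ s) : ∃ g, Sol (fun a b => G ψ (f a) (f b)) g := by
  have o : ∀ a, ok ψ (f a) := fun a => (h2 _).1 ⟨a, rfl⟩
  have : ∀ a, ∃ b, ((f a).2.2 = 21 → f b = f a) ∧
      ((f a).2.2 ≠ 21 → f b = ((f a).1, (f a).2.1, s (f a))) := fun a => by
    by_cases z : (f a).2.2 = 21
    · exact ⟨a, by simp [z]⟩
    · simpa [z] using (h2 _).2 (h _ (o a) z).1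
  choose g g1 g2 using this
  refine ⟨g, fun a => ⟨?_, fun b d => ?_⟩⟩
  · by_cases z : (f a).2.2 = 21
    · simp [g1 a z, G, z]
    · simpa only [g2 a z] using (h _ (o a) z).2.2.1
  by_cases z : (f a).2.2 = 21 <;> by_cases z' : (f b).2.2 = 21
  · have d := h3.ne d
    have := (o a).1
    have := (o b).1
    simp only [ne_eq, Prod.ext_iff] at d
    simp [g1 a z, g1 b z', G, z, z', key]; omega
  · simp [g1 a z, g2 b z', G, z, z', key, (h _ (o b) z').2.1, eq_comm]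
  · simp [g2 a z, g1 b z', G, z, z', key, (h _ (o a) z).2.1, eq_comm]
  · simp only [g2 a z, g2 b z']
    exact (h _ (o a) z).2.2.2 _ (o b) z' (h3.ne d)

lemma good_of_sol {σ : V ≃ V} (h : Sol (fun a b => G ψ (f a) (f b)) σ) : ∃ s, Good ψ s := by
  have o : ∀ a, ok ψ (f a) := fun a => (h2 _).1 ⟨a, rfl⟩
  have l := length_lt_size ψ
  have n : ∀ a b, (f a).2.2 = 21 → ¬ G ψ (f a) (f b) → ((f b).2.2 = 21 ∧ key (f b) ≤ key (f a)) ∨
      ((f b).2.2 ≠ 21 ∧ key (f b) = key (f a)) := fun a b z g => by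
    simp only [G, z, true_and, not_or] at g; omega
  have e : ∀ a b, (f a).2.2 = 21 → (f b).2.2 = 21 → key (f a) = key (f b) → a = b :=
    fun a b z z' c => h3 (by
      have := (o a).1; have := (o b).1; simp only [key, Prod.ext_iff] at *; omega)
  have a1 : ∀ k a, key (f a) = k → (f a).2.2 = 21 → σ a = a := fun k => by
    induction k using Nat.strong_induction_on with | _ k ih =>
    intro a hk z
    obtain ⟨w, rfl⟩ := σ.surjective a
    congr 1
    rcases n _ _ z (h w).1 with ⟨c, d⟩ | ⟨c, d⟩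
    · exact d.lt_or_eq.elim (fun d => ih _ (hk ▸ d) w rfl c) fun d => e _ _ z c d.symm
    have : ∀ j < 2, f (σ (σ w)) = (j, size ψ, 21) := fun j hj => by
      obtain ⟨b, hb⟩ := (h2 (j, size ψ, 21)).2 (by unfold ok; simp; omega)
      obtain ⟨u, rfl⟩ := σ.surjective b
      have k1 : key (f w) < key (f (σ u)) := by
        have := o w; simp only [hb, key, ok] at *; omega
      have g : G ψ (f (σ u)) (f w) := Or.inr (Or.inl ⟨by simp [hb], c, k1.ne'⟩)
      have d' : u ≠ w := fun e => (h u).1 (e ▸ g)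
      rcases n _ _ z (((h u).2 w d').1 g) with ⟨c', d''⟩ | ⟨c', d''⟩
      · refine d''.lt_or_eq.elim (fun d => ?_) fun d => e _ _ c' z d ▸ hb
        rw [ih _ (hk ▸ d) u rfl c'] at k1; omega
      · exact absurd (Or.inr (Or.inl ⟨by simp [hb], c', by omega⟩)) (h u).1
    simpa [this 1] using this 0
  have a2 : ∀ p, ∃ t, ∀ a, f a = p → p.2.2 ≠ 21 → t ≠ 21 ∧ f (σ a) = (p.1, p.2.1, t) := fun p => by
    by_cases c : ∃ a, f a = p
    swap
    · exact ⟨0, fun a e => absurd ⟨a, e⟩ c⟩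
    obtain ⟨a, rfl⟩ := c
    refine ⟨(f (σ a)).2.2, fun b e z => ?_⟩
    obtain rfl := h3 e
    have z' : (f (σ b)).2.2 ≠ 21 := fun c => z (by rwa [σ.injective (a1 _ _ rfl c)] at c)
    obtain ⟨u, hu⟩ := (h2 ((f b).1, (f b).2.1, 21)).2 ⟨(o b).1, (o b).2.1, Or.inl rfl⟩
    have g := ((h b).2 u (by rintro rfl; exact z (by rw [hu]))).2
      (by simp [a1 _ u rfl (by rw [hu]), hu, G, z, key])
    have := (o b).1
    have := (o (σ b)).1
    simp [G, hu, z', key] at g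
    simp only [Prod.ext_iff, and_true]
    omega
  choose s hs using a2
  refine ⟨s, fun p hp z => ?_⟩
  obtain ⟨a, rfl⟩ := (h2 p).2 hp
  obtain ⟨b1, b2⟩ := hs _ a rfl z
  refine ⟨b2 ▸ o _, b1, b2 ▸ (h a).1, fun q hq z' d => ?_⟩
  obtain ⟨b, rfl⟩ := (h2 q).2 hq
  exact b2 ▸ (hs _ b rfl z').2 ▸ (h a).2 b fun e => d (e ▸ rfl)

end

def verts (ψ : List Cl) : List T :=
  (List.range 5 ×ˢ List.range (size ψ + 1) ×ˢ List.range 22).filter fun p => decide (ok ψ p)

def red (ψ : List Cl) : List (List Bool) := mat (verts ψ) fun p q => decide (G ψ p q)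

lemma red_pt : PT red := by
  unfold red verts
  refine PT.mat (PT.filter (PP.decide ?_) (by fun_prop)) (PP.decide ?_)
  · unfold ok; fun_prop
  · have h0 : PT fun x : List Cl × T => lt x.1 x.2.1 x.2.2.1 := by
      unfold lt lit
      exact PP.ite (by fun_prop) (by fun_prop) (PP.ite (by fun_prop) (by fun_prop) (by fun_prop))
    have h0' : PT fun x : List Cl × T × T => lt x.1 x.2.1.1 x.2.1.2.1 :=
      PT.comp (f := fun x : List Cl × T × T => (x.1, x.2.1)) h0 (by fun_prop)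
    have h1 : PP fun x : List Cl × T × T => link x.1 x.2.1 x.2.2 := by unfold link; fun_prop
    have h2 : PP fun x : List Cl × T × T => E x.1 x.2.1 x.2.2 := by unfold E tri; fun_prop
    have h3 : PP fun x : List Cl × T × T => link x.1 x.2.2 x.2.1 :=
      PP.comp (f := fun x : List Cl × T × T => (x.1, x.2.2, x.2.1)) h1 (by fun_prop)
    have h4 : PP fun x : List Cl × T × T => E x.1 x.2.2 x.2.1 :=
      PP.comp (f := fun x : List Cl × T × T => (x.1, x.2.2, x.2.1)) h2 (by fun_prop)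
    unfold G key Nlt.inner
    exact PP.or (by fun_prop) (PP.or (by fun_prop) (PP.or (by fun_prop) (PP.and (by fun_prop)
      (PP.and (by fun_prop) (PP.or (by fun_prop) (PP.or (h1.and h2) (PP.or (h3.and h4.not)
      (h1.not.and (h3.not.and (by fun_prop))))))))))

lemma hard : Hard NLT := hard_one.red red_pt fun ψ => by
  have l : ∀ a : Fin (red ψ).length, a.1 < (verts ψ).length := fun a => by simpa [red] using a.2
  have h1 : ∀ a b : Fin (red ψ).length, Entry (red ψ) a b ↔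
      G ψ ((verts ψ)[a.1]'(l a)) ((verts ψ)[b.1]'(l b)) := fun a b => by
    simp only [Entry, red, mat_get, l a, l b, exists_true_left, decide_eq_true_eq]
  have h2 : ∀ p, (∃ a : Fin (red ψ).length, (verts ψ)[a.1]'(l a) = p) ↔ ok ψ p := fun p => by
    have : p ∈ verts ψ ↔ ok ψ p := by
      obtain ⟨a, b, c⟩ := p
      simp only [verts, List.mem_filter, List.mem_product, List.mem_range, decide_eq_true_eq]
      simp only [ok]; omega
    exact ⟨fun ⟨i, e⟩ => this.1 (e ▸ List.getElem_mem _), fun h =>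
      let ⟨i, hi, e⟩ := List.getElem_of_mem (this.2 h); ⟨⟨i, by simpa [red] using hi⟩, e⟩⟩
  have h3 : Function.Injective fun a : Fin (red ψ).length => (verts ψ)[a.1]'(l a) := fun a b e =>
    Fin.ext (((List.nodup_range.product (List.nodup_range.product List.nodup_range)).filter
      _).getElem_inj_iff.1 e)
  simp only [NLT, h1]
  exact ⟨fun h => ⟨mat_row _ _, sol_iff.2 ((good_of_one h).elim fun _ g => g.sol h2 h3)⟩,
    fun ⟨_, A, σ, h, e⟩ => (good_of_sol h2 h3 (σ := σ) fun a => ⟨mt (e a a).2 (h.1 a), fun b d => by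
      simpa only [← e, xor_iff_iff_not] using h.2 a b d⟩).elim fun _ g => g.one⟩

def ver (z : List (List Bool) × List ℕ) : Prop :=
  (¬ ∃ r ∈ z.1, r.length ≠ z.1.length) ∧ ¬ ∃ a < z.1.length, ¬ z.2.getD a 0 < z.1.length ∨
    ent z.1 (z.2.getD a 0) a = true ∨ ∃ b < z.1.length, a ≠ b ∧
      (ent z.1 (z.2.getD a 0) b = true ↔ ent z.1 (z.2.getD b 0) a = true)

theorem result : NPComplete (Lang NLT) := by
  classical
  refine ⟨inNP_Lang (V := fun z => decide (ver z)) (PP.decide ?_) (X * (2 * X + 1 + 1) + 1)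
    (fun M ⟨g, h⟩ => ?_) fun M s h => ?_, hard.npHard⟩
  · unfold ver; fun_prop
  · obtain ⟨σ, h⟩ := (sol_iff (D := fun a b : Fin M.length => Entry M a b)).1 h
    refine ⟨List.ofFn fun a => (σ a).1, ?_, decide_eq_true ⟨by simpa using g, ?_⟩⟩
    · have := length_lt_size M
      have h := size_list_le (List.ofFn fun a => (σ a).1) (2 * size M + 1) fun x hx => by
        obtain ⟨a, rfl⟩ := (List.mem_ofFn' _ _).1 hx
        have := (σ a).2
        simp; omega
      have := Nat.mul_le_mul_right (2 * size M + 1 + 1) (length_lt_size M).le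
      simp at h ⊢; omega
    · have e : ∀ a (ha : a < M.length), (List.ofFn fun a => (σ a).1).getD a 0 = σ ⟨a, ha⟩ := by
        simp +contextual
      rintro ⟨a, ha, c | c | ⟨b, hb, c, d⟩⟩
      · exact c (e a ha ▸ (σ _).2)
      · exact (h ⟨a, ha⟩).1 (e a ha ▸ c :)
      · rw [e a ha, e b hb] at d
        exact iff_not_self (d.symm.trans ((h ⟨a, ha⟩).2 ⟨b, hb⟩ (by simpa)))
  · obtain ⟨g, h⟩ := of_decide_eq_true h
    push Not at g h
    exact ⟨g, sol_iff (D := fun a b : Fin M.length => Entry M a b) |>.2 ⟨fun a => ⟨_, (h a a.2).1⟩,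
      fun a => ⟨(h a a.2).2.1, fun b d => by
        have := (h a a.2).2.2 b b.2 (Fin.val_ne_iff.2 d)
        simp only [Entry, ent] at *; tauto⟩⟩⟩

end Pool.Agent.Results.MP_398f0f_lc.NPComplete
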